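import Pool.Agent.MP67f4ab.Lower

/-!
MP_67f4ab_al, Q1, for every group: for a homogeneous quasimorphism the least defect of a
quasimorphism at bounded distance is attained and is exactly half of its defect.
-/

set_option autoImplicit false

namespace Pool.Agent.Results.MP_67f4ab_al.HalfDefectAttained

variable {G : Type*} [Group G]

/-- `φ` is a quasimorphism: the numbers `|φ(gh) - φ(g) - φ(h)|` are bounded. -/
def IsQuasimorphism (φ : G → ℝ) : Prop :=
  BddAbove (Set.range fun p : G × G => |φ (p.1 * p.2) - φ p.1 - φ p.2|)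

/-- The defect: the supremum of the numbers `|φ(gh) - φ(g) - φ(h)|`. -/
noncomputable def defect (φ : G → ℝ) : ℝ :=
  ⨆ p : G × G, |φ (p.1 * p.2) - φ p.1 - φ p.2|

/-- `φ(g^n) = n φ(g)` for every `g` and every integer `n`. -/
def IsHomogeneous (φ : G → ℝ) : Prop :=
  ∀ (g : G) (n : ℤ), φ (g ^ n) = (n : ℝ) * φ g

/-- `sup |φ(g) - ψ(g)|` is finite. -/
def AtBoundedDistance (φ ψ : G → ℝ) : Prop :=
  BddAbove (Set.range fun g : G => |φ g - ψ g|)

/-- Let `φ` be a homogeneous quasimorphism of a group `G` (for instance a free group of any rank).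
Among all quasimorphisms `ψ` of `G` at bounded distance from `φ` the least defect is attained, and
it is `D(φ)/2`; moreover it is attained by an antisymmetric `ψ` with `|φ - ψ| ≤ D(φ)/2`. -/
theorem result (φ : G → ℝ) (hφ : IsQuasimorphism φ) (hh : IsHomogeneous φ) :
    (∃ ψ : G → ℝ, IsQuasimorphism ψ ∧ AtBoundedDistance φ ψ ∧ defect ψ = defect φ / 2 ∧
      (∀ g : G, |φ g - ψ g| ≤ defect φ / 2) ∧ ∀ g : G, ψ g⁻¹ = - ψ g) ∧
    ∀ ψ : G → ℝ, IsQuasimorphism ψ → AtBoundedDistance φ ψ → defect φ / 2 ≤ defect ψ := by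
  have hle : ∀ {χ : G → ℝ}, IsQuasimorphism χ →
      ∀ g h : G, |χ (g * h) - χ g - χ h| ≤ defect χ :=
    fun hχ g h => le_ciSup hχ (g, h)
  have hq := hle hφ
  have hn : ∀ (g : G) (n : ℕ), φ (g ^ n) = (n : ℝ) * φ g := by
    intro g n
    have := hh g n
    rw [zpow_natCast] at this
    simpa using this
  have hlow : ∀ ψ : G → ℝ, IsQuasimorphism ψ → AtBoundedDistance φ ψ →
      defect φ / 2 ≤ defect ψ := by
    rintro ψ hψ ⟨C, hC⟩
    have h1 : ∀ g, |ψ g - φ g| ≤ C := by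
      intro g
      rw [abs_sub_comm]
      exact hC ⟨g, rfl⟩
    have h2 := Pool.Agent.MP67f4ab.lower hq hn (hle hψ) h1
    have h3 : defect φ ≤ 2 * defect ψ := ciSup_le fun p => h2 p.1 p.2
    linarith
  refine ⟨?_, hlow⟩
  obtain ⟨ψ, h1, h2⟩ := Pool.Agent.MP67f4ab.exists_half_defect hq hn
  have hinv := Pool.Agent.MP67f4ab.phi_inv hq hn
  refine ⟨fun g => (ψ g - ψ g⁻¹) / 2, ?_⟩
  have hd : ∀ g h : G, |(ψ (g * h) - ψ (g * h)⁻¹) / 2 - (ψ g - ψ g⁻¹) / 2 -
      (ψ h - ψ h⁻¹) / 2| ≤ defect φ / 2 := by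
    intro g h
    have a1 := h2 g h
    have a2 := h2 h⁻¹ g⁻¹
    rw [mul_inv_rev]
    rw [abs_le] at a1 a2 ⊢
    constructor <;> linarith [a1.1, a1.2, a2.1, a2.2]
  have hdist : ∀ g : G, |φ g - (ψ g - ψ g⁻¹) / 2| ≤ defect φ / 2 := by
    intro g
    have a1 := h1 g
    have a2 := h1 g⁻¹
    rw [hinv] at a2
    rw [abs_le] at a1 a2 ⊢
    constructor <;> linarith [a1.1, a1.2, a2.1, a2.2]
  have hQ : IsQuasimorphism fun g : G => (ψ g - ψ g⁻¹) / 2 := by
    refine ⟨defect φ / 2, ?_⟩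
    rintro _ ⟨p, rfl⟩
    exact hd p.1 p.2
  have hB : AtBoundedDistance φ fun g : G => (ψ g - ψ g⁻¹) / 2 := by
    refine ⟨defect φ / 2, ?_⟩
    rintro _ ⟨g, rfl⟩
    exact hdist g
  refine ⟨hQ, hB, le_antisymm ?_ (hlow _ hQ hB), hdist, ?_⟩
  · exact ciSup_le fun p => hd p.1 p.2
  · intro g
    simp only [inv_inv]
    ring

end Pool.Agent.Results.MP_67f4ab_al.HalfDefectAttained
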